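import Pool.Agent.H10.CE.Targets

/-!
# CE: the cell expander
-/

set_option autoImplicit false

open Finset Matrix Pool.Agent.H10.CE

namespace Pool.Agent.H12.CEX

lemma ee_add (s t : ℝ) : ee (s + t) = ee s * ee t := by
  unfold ee
  rw [← Complex.exp_add]
  congr 1
  push_cast
  ring

lemma norm_ee (t : ℝ) : ‖ee t‖ = 1 := by
  unfold ee
  exact Complex.norm_exp_ofReal_mul_I _

/-- the sum over a window in the coordinates of the window -/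
lemma sum_window (c : ℕ → ℂ) (S M P a y : ℕ) (f g : ℕ → ℂ) (α β : ℝ) (hS : 1 ≤ S)
    (hf : ∀ m n, m / S = n / S → f m = f n) (hg : ∀ m n, m / S = n / S → g m = g n) :
    ∑ n ∈ Ico (S * y) (S * y + M), ∑ p ∈ Pr P, (if p ∣ n then (p : ℂ) - 1 else -1) *
      (c p * f n * g (n + a * p) * ee (α * n + β * p)) =
    ee (α * (S * y)) * CS c S M P a y (fun i => f (S * (y + i))) (fun j => g (S * (y + j)))
      α β := by
  have hS0 : 0 < S := hS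
  have hdiv : ∀ x : ℕ, (S * y + x) / S = (S * (y + x / S)) / S := by
    intro x
    rw [Nat.mul_div_cancel_left _ hS0, Nat.mul_add_div hS0]
  rw [Finset.sum_Ico_eq_sum_range]
  unfold CS
  rw [Nat.add_sub_cancel_left, Finset.mul_sum]
  refine sum_congr rfl fun x _ => ?_
  rw [Finset.mul_sum]
  refine sum_congr rfl fun p _ => ?_
  have h1 : f (S * y + x) = f (S * (y + x / S)) := hf _ _ (hdiv x)
  have h2 : g (S * y + x + a * p) = g (S * (y + (x + a * p) / S)) := by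
    rw [add_assoc]
    exact hg _ _ (hdiv (x + a * p))
  have h3 : ee (α * ((S * y + x : ℕ) : ℝ) + β * p) =
      ee (α * (S * y)) * ee (α * x + β * p) := by
    rw [← ee_add]
    congr 1
    push_cast
    ring
  have h4 : (if p ∣ S * y + x then (p : ℂ) - 1 else -1) = (wt S y (x, p) : ℂ) := by
    unfold wt
    split_ifs
    · push_cast; ring
    · push_cast; ring
  rw [h1, h2, h3, h4]
  ring

open Classical in
theorem pf_CE (hFIX : T_FIX) (hNET : T_NET) (hNPR : T_NPR) (hPAR : T_PAR) : T_CE := by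
  intro ε J hε hJ
  have hε1 : 0 < min ε 1 := lt_min hε one_pos
  have hε2 : min ε 1 ≤ 1 := min_le_right _ _
  obtain ⟨P₁, hP₁⟩ := hNPR
  obtain ⟨P₂, hP₂⟩ := hPAR (min ε 1) J hε1 hε2 hJ
  refine ⟨max (max P₁ P₂) 3, ?_⟩
  intro P S M Y₁ Y c hP hc hLS hSP hJM hMP hlog
  have hPa : P₁ ≤ P := (le_max_left _ _).trans ((le_max_left _ _).trans hP)
  have hPb : P₂ ≤ P := (le_max_right _ _).trans ((le_max_left _ _).trans hP)
  have hP3 : 3 ≤ P := (le_max_right _ _).trans hP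
  have hlog1 : 1 ≤ Real.log P := by
    have h3 : (3 : ℝ) ≤ P := by exact_mod_cast hP3
    rw [Real.le_log_iff_exp_le (by linarith)]
    exact (Real.exp_one_lt_d9.le.trans (by norm_num)).trans h3
  have hS1 : 1 ≤ S := by
    have : (1 : ℝ) ≤ S := (one_le_pow₀ hlog1).trans hLS
    exact_mod_cast this
  have hPM : P ≤ M := by nlinarith
  have hSM : S ≤ M := hSP.trans hPM
  obtain ⟨r, hr1, hr2⟩ := hP₂ P S M Y (Pr P).card hPb hLS hSP hPM hMP hlog (hP₁ P hPa).1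
  set B : ℝ := (Y : ℝ) * (M / S) *
    (128 * (12 * ((2 : ℝ) ^ r) ^ 2 * P) / ((min ε 1 / 2) ^ 2 * ((Pr P).card * S))) ^ (2 ^ r) +
    ((M : ℝ) * (2 * P) ^ 2 * (3 / (min ε 1 / 2))) ^ (2 * 2 ^ r) with hB
  have key : ∀ a ∈ Icc 1 J, (((Ico Y₁ (Y₁ + Y)).filter fun y => ∃ (F G : ℕ → ℂ) (α β : ℝ),
      (∀ n, ‖F n‖ ≤ 1) ∧ (∀ n, ‖G n‖ ≤ 1) ∧
      min ε 1 * M * (Pr P).card < ‖CS c S M P a y F G α β‖).card : ℝ) ≤
      (300 * M / min ε 1) ^ 2 * B := by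
    intro a ha
    rw [mem_Icc] at ha
    have haM : 2 * a * P ≤ M := by
      refine le_trans ?_ hJM
      have := ha.2
      gcongr
    refine hNET c S M P a Y₁ Y (min ε 1) B hc hε1 hε2 hS1 (by omega) hPM fun α β => ?_
    exact hFIX c S M P a Y₁ Y r α β (min ε 1 / 2) ((Pr P).card * S)
      (12 * ((2 : ℝ) ^ r) ^ 2 * P) hc (by linarith) hS1 hSP hSM haM rfl rfl hr1
  refine le_trans ?_ hr2
  have hsub : ((Ico Y₁ (Y₁ + Y)).filter fun y => ∃ a : ℕ, 1 ≤ a ∧ a ≤ J ∧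
      ∃ (f g : ℕ → ℂ) (α β : ℝ), (∀ n, ‖f n‖ ≤ 1) ∧ (∀ n, ‖g n‖ ≤ 1) ∧
        (∀ m n, m / S = n / S → f m = f n) ∧ (∀ m n, m / S = n / S → g m = g n) ∧
        ε * M * (Pr P).card < ‖∑ n ∈ Ico (S * y) (S * y + M), ∑ p ∈ Pr P,
          (if p ∣ n then (p : ℂ) - 1 else -1) *
            (c p * f n * g (n + a * p) * ee (α * n + β * p))‖) ⊆
      (Icc 1 J).biUnion fun a => (Ico Y₁ (Y₁ + Y)).filter fun y =>
        ∃ (F G : ℕ → ℂ) (α β : ℝ), (∀ n, ‖F n‖ ≤ 1) ∧ (∀ n, ‖G n‖ ≤ 1) ∧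
        min ε 1 * M * (Pr P).card < ‖CS c S M P a y F G α β‖ := by
    intro y hy
    rw [mem_filter] at hy
    obtain ⟨hy0, a, ha1, ha2, f, g, α, β, hf, hg, hfc, hgc, hlt⟩ := hy
    rw [mem_biUnion]
    refine ⟨a, mem_Icc.2 ⟨ha1, ha2⟩, mem_filter.2 ⟨hy0, fun i => f (S * (y + i)),
      fun j => g (S * (y + j)), α, β, fun _ => hf _, fun _ => hg _, ?_⟩⟩
    rw [sum_window c S M P a y f g α β hS1 hfc hgc, norm_mul, norm_ee, one_mul] at hlt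
    refine lt_of_le_of_lt ?_ hlt
    gcongr
    exact min_le_left _ _
  calc (((Ico Y₁ (Y₁ + Y)).filter fun y => ∃ a : ℕ, 1 ≤ a ∧ a ≤ J ∧
      ∃ (f g : ℕ → ℂ) (α β : ℝ), (∀ n, ‖f n‖ ≤ 1) ∧ (∀ n, ‖g n‖ ≤ 1) ∧
        (∀ m n, m / S = n / S → f m = f n) ∧ (∀ m n, m / S = n / S → g m = g n) ∧
        ε * M * (Pr P).card < ‖∑ n ∈ Ico (S * y) (S * y + M), ∑ p ∈ Pr P,
          (if p ∣ n then (p : ℂ) - 1 else -1) *
            (c p * f n * g (n + a * p) * ee (α * n + β * p))‖).card : ℝ)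
      ≤ (((Icc 1 J).biUnion fun a => (Ico Y₁ (Y₁ + Y)).filter fun y =>
        ∃ (F G : ℕ → ℂ) (α β : ℝ), (∀ n, ‖F n‖ ≤ 1) ∧ (∀ n, ‖G n‖ ≤ 1) ∧
        min ε 1 * M * (Pr P).card < ‖CS c S M P a y F G α β‖).card : ℝ) := by
        exact_mod_cast card_le_card hsub
    _ ≤ ∑ a ∈ Icc 1 J, (((Ico Y₁ (Y₁ + Y)).filter fun y => ∃ (F G : ℕ → ℂ) (α β : ℝ),
      (∀ n, ‖F n‖ ≤ 1) ∧ (∀ n, ‖G n‖ ≤ 1) ∧
      min ε 1 * M * (Pr P).card < ‖CS c S M P a y F G α β‖).card : ℝ) := by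
        exact_mod_cast card_biUnion_le
    _ ≤ ∑ _a ∈ Icc 1 J, (300 * M / min ε 1) ^ 2 * B := sum_le_sum key
    _ = J * ((300 * M / min ε 1) ^ 2 * B) := by
        rw [sum_const, Nat.card_Icc, nsmul_eq_mul, Nat.add_sub_cancel]

end Pool.Agent.H12.CEX
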